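import Pool.Agent.U536.CF.F
import Pool.Agent.U536.CF.At
import Pool.Agent.Results.MP_e44225_nt.MultiplicativeValues

/-!
# The error term in Vojta's inequality for all curves at all points over all elements whose radicals are near an integer with a
large common factor with a value of a multiplicative function

Let `f` be a positive multiplicative function of at most polynomial growth such that `f p ≤ M p` for the large primes `p`,
with different values at different large primes; for example Euler's function or the sum of the divisors. Let `G` have steps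
bounded below by a positive constant and growth at most `v ^ d`, for example `α v ^ d`. Let `K` be a number field,
`a_1, …, a_q`, `q ≥ 3`, distinct rational numbers and `R(x)` the exponential of the truncated counting function of
`[a_1] + … + [a_q]` at `x`, and let `κ > 0`. There is `ν > 0` such that for `θ ≥ 0`, `d (2 / q - ν) + θ < ρ ≤ 1` and `b < 1` there
is ONE set `W` of integers `m`, with at most `N exp (-(log N)^c)` elements up to `N` for every `0 ≤ c < 2 b - 1` and all large
`N`, such that for ALL number fields `k`, ALL smooth projective curves `C` over `k` and ALL finite maps `t : C → ℙ¹` over `k`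
which are unramified outside the fibres over the `a_j` all points `P` of all degrees over ALL `x` in `K` with
`|R(x) - G w| ≤ w ^ θ` for some integer `w ≥ exp ((log m)^b)` with `gcd(w, f(m)) ≥ w^ρ`, for some `m` not in `W`, satisfy
`m_S(F, P) + (deg K_C / N) h(x) ≤ d(L) - (2 - κ) h(x) + ∑_{p ∈ S} log p + c` for all finite sets `S` of primes and all number
fields `L` over which `P` is defined, and, with finitely many exceptions `x` for each `S`,
`m_S(F, P) + (deg K_C / N) h(x) < d(L) - (2 - κ) h(x)`. For the terms see `OneExceptionalSet`. The integers `w` include all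
large divisors of `f(m)` and their multiples by small integers; for Euler's function, the orders of the elements of the group of
units modulo `m`.

Proof. Write `m = k u` with `u` squarefree and composed of primes larger than `N^(1/J)`, `J = (log N)^a`, and
`k ≤ exp (4 (log N)^a)`; this is possible for all `m ≤ N` but very few. If `v ∣ f(k) f(u)`, then `v = g v'` with `g ∣ f(k)` and
`v' ∣ ∏ f(p)`, and the number of such `u ≤ N / k` is at most `N / (k v')` times `(log N)^O(J)` times the number `τ_J(v')` of the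
ordered factorizations of `v'` into `J` factors. The inequality `τ_J^q ≤ τ_K` for `K ≥ J^q` and Hölder's inequality bound the
sum over the sparse set of the exceptional `v`. The file `MultiplicativeValues` of the starting library treats the integers
`w = f(m)`, with `N / (log N)^U` exceptions.
-/

set_option autoImplicit false

namespace Pool.Agent.Results.MP_e44225_nt.CommonFactors

open Polynomial IsDedekindDomain NumberField
open Pool.Agent.N733.TG (LM Expanding lm_totient lm_sigma expanding_pow)
open Pool.Agent.U536.CF (Common common_windows_unif sparse_at common_of_dvd common_order)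
open OneExceptionalSet (coord height proximity counting logDisc canonical Values)
open Pool.Agent.Results.MP_e44225_nt.MultiplicativeValues (rad)

/-- `W` has at most `N exp (-(log N)^c)` elements up to `N` for each `0 ≤ c < 2 b - 1` and all large `N` -/
def VerySparse (b : ℝ) (W : Set ℕ) : Prop :=
  ∀ c : ℝ, 0 ≤ c → c < 2 * b - 1 → ∃ N₀ : ℕ, ∀ N : ℕ, N₀ ≤ N →
    ({m : ℕ | 1 ≤ m ∧ m ≤ N ∧ m ∈ W}.ncard : ℝ) ≤ N * Real.exp (-(Real.log N ^ c))

/-- **Theorem.** Let `K` be a number field, `a_1, …, a_q`, `q ≥ 3`, distinct rational numbers and `κ > 0`. There is `ν > 0`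
with the following property. Let `f` be multiplicative and positive, of at most polynomial growth, with `f p ≤ M p` at the large
primes, and injective there, let `G` have steps `≥ c > 0` and growth at most `v ^ d`, `θ ≥ 0`, `d (2 / q - ν) + θ < ρ ≤ 1` and
`b < 1`. There is a set `W` of integers with at most `N exp (-(log N)^c)` elements up to `N`, for every `0 ≤ c < 2 b - 1` and all
large `N`, such that the following holds for all number fields `k`. Let `A` be a Dedekind domain, finite over `k[t]` and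
containing it, and let `y_{j 0} = t - a_j, y_{j 1}, …` be elements of the radical of the ideal `(t - a_j)` of `A`, for example
generators. Write `g` for `q - 2 - (∑_j dim (A / (y_{j 0}, y_{j 1}, …))) / N`. (a) There is a constant `c` such that for all
`m ≥ 1` not in `W`, ALL integers `w ≥ exp ((log m)^b)` with `gcd(w, f(m)) ≥ w^ρ` and ALL `x` in `K`, different from the `a_j`,
with `|R(x) - G w| ≤ w ^ θ`, all points `P` of the curve with `t(P) = x`, all number fields `L` containing `k` and `K` over which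
`P` is defined and all finite sets `S` of primes satisfy
`m_S(F, P) + g h(x) ≤ d(L) - (2 - κ) h(x) + ∑_{p ∈ S} log p + c`. (b) For every finite set `S` of primes, all but finitely many
of these `x` satisfy `m_S(F, P) + g h(x) < d(L) - (2 - κ) h(x)` for all these `P` and `L`. All divisors `w ≥ exp ((log m)^b)` of
`f(m)` are such integers `w`, and for Euler's function the orders `≥ exp ((log m)^b)` of the units modulo `m`. Euler's function
and the sum of the divisors are examples of such functions `f`, and `α v ^ d` with `α > 0`, `d ≥ 1` is an example of `G`. -/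
theorem result (K : Type) [Field K] [NumberField K] (q : ℕ) (hq : 3 ≤ q) (a : Fin q → ℚ)
    (ha : Function.Injective a) (κ : ℝ) (hκ : 0 < κ) :
    (∃ ν : ℝ, 0 < ν ∧ ∀ f : ℕ → ℕ, LM f → ∀ (G : ℕ → ℝ) (d θ ρ b : ℝ), Expanding G d → 0 ≤ θ →
      d * (2 / (q : ℝ) - ν) + θ < ρ → ρ ≤ 1 → b < 1 → ∃ W : Set ℕ, VerySparse b W ∧
      ∀ (k : Type) [Field k] [NumberField k] (A : Type) [CommRing A] [IsDedekindDomain A]
        [Algebra k A] [Algebra k[X] A] [IsScalarTower k k[X] A] [Module.Finite k[X] A]
        [FaithfulSMul k[X] A] (u : Fin q → ℕ) (y : ∀ j, Fin (u j + 1) → A),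
        (∀ j, y j 0 = coord k A - algebraMap k A (algebraMap ℚ k (a j))) →
        (∀ j i, y j i ∈
          (Ideal.span {coord k A - algebraMap k A (algebraMap ℚ k (a j))}).radical) →
        (∃ c : ℝ, ∀ m w : ℕ, 1 ≤ m → m ∉ W → Common f b ρ m m w → ∀ x : K, (∀ j, x ≠ algebraMap ℚ K (a j)) →
          |rad a x - G w| ≤ (w : ℝ) ^ θ →
          ∀ (L : Type) [Field L] [NumberField L] [Algebra K L] [Algebra k L] (φ : A →ₐ[k] L),
            φ (coord k A) = algebraMap K L x → ∀ S : Finset ℕ, (∀ p ∈ S, p.Prime) →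
              proximity S y φ + canonical k y * height x ≤
                logDisc L - (2 - κ) * height x + ∑ p ∈ S, Real.log p + c) ∧
        ∀ S : Finset ℕ, (∀ p ∈ S, p.Prime) → ∃ R : Set K, R.Finite ∧
          ∀ m w : ℕ, 1 ≤ m → m ∉ W → Common f b ρ m m w → ∀ x : K, x ∉ R → (∀ j, x ≠ algebraMap ℚ K (a j)) →
          |rad a x - G w| ≤ (w : ℝ) ^ θ →
          ∀ (L : Type) [Field L] [NumberField L] [Algebra K L] [Algebra k L] (φ : A →ₐ[k] L),
            φ (coord k A) = algebraMap K L x →
              proximity S y φ + canonical k y * height x < logDisc L - (2 - κ) * height x) ∧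
    (LM Nat.totient ∧ LM (fun m => ∑ d ∈ m.divisors, d)) ∧
    (∀ α d : ℝ, 0 < α → 1 ≤ d → Expanding (fun v => α * (v : ℝ) ^ d) d) ∧
    (∀ (f : ℕ → ℕ) (b ρ : ℝ) (m w : ℕ), ρ ≤ 1 → Real.exp (Real.log m ^ b) ≤ (w : ℝ) → w ∣ f m → Common f b ρ m m w) ∧
    ∀ (b ρ : ℝ) (m : ℕ), ρ ≤ 1 → ∀ x : (ZMod m)ˣ, Real.exp (Real.log m ^ b) ≤ (orderOf x : ℝ) →
      Common Nat.totient b ρ m m (orderOf x) := by
  refine ⟨?_, ⟨lm_totient, lm_sigma⟩, fun α d hα hd => expanding_pow hα hd,
    fun f b ρ m w hρ hw hd => common_of_dvd hρ hw hd, fun b ρ m hρ x hx => common_order hρ x hx⟩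
  obtain ⟨hval, hres⟩ := OneExceptionalSet.result K q hq a ha
  obtain ⟨E, ⟨ν, C, hν, hC, hcount⟩, -, hE⟩ := hres κ hκ
  have hfin : ∀ X : ℝ, 1 ≤ X → (Values K a X).Finite := by
    obtain ⟨⟨C1, h1⟩, -⟩ := hval 1 one_pos
    exact fun X hX => (h1 X hX).1
  have hq0 : (0 : ℝ) < q := by
    have : 0 < q := by omega
    exact_mod_cast this
  have hg : 0 < 2 / (q : ℝ) := by positivity
  obtain ⟨ν', hν'⟩ : ∃ ν', ν' = min ν (2 / (q : ℝ)) := ⟨_, rfl⟩
  have hν'0 : 0 < ν' := by rw [hν']; exact lt_min hν hg
  have hν'1 : ν' ≤ ν := by rw [hν']; exact min_le_left _ _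
  have hν'2 : ν' ≤ 2 / (q : ℝ) := by rw [hν']; exact min_le_right _ _
  refine ⟨ν', hν'0, fun f hf G d θ ρ b hG hθ h3 hρ hb => ?_⟩
  obtain ⟨S₀, hS₀⟩ : ∃ S₀ : Set K, S₀ = {x : K | x ∈ E ∧ ∀ j, x ≠ algebraMap ℚ K (a j)} := ⟨_, rfl⟩
  refine ⟨{m : ℕ | ∃ w : ℕ, Common f b ρ m m w ∧ ∃ x ∈ S₀, |rad a x - G w| ≤ (w : ℝ) ^ θ}, ?_, ?_⟩
  · intro c hc hcb
    refine sparse_at (fun _ w => ∃ x ∈ S₀, |rad a x - G w| ≤ (w : ℝ) ^ θ) hb hc hcb (fun b' c' hb' hc' hcb' => ?_)
    obtain ⟨N₀, hN₀⟩ := common_windows_unif (fun x : K => rad a x) hf hG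
      (s := 2 / (q : ℝ) - ν') (by linarith) hθ h3 hρ hb' hc' hcb' C
    refine ⟨N₀, fun N hN => ?_⟩
    refine hN₀ S₀ (fun X hX => ?_) N hN
    have hX0 : 0 < X := by linarith
    have hsub : {x : K | x ∈ S₀ ∧ rad a x ≤ X} ⊆ E ∩ Values K a X := by
      rintro x ⟨h1, h2⟩
      rw [hS₀] at h1
      refine ⟨h1.1, h1.2, ?_⟩
      rw [Real.le_log_iff_exp_le hX0]
      exact h2
    have hf2 : (E ∩ Values K a X).Finite := (hfin X hX).subset Set.inter_subset_right
    refine ⟨hf2.subset hsub, ?_⟩
    have e1 : X ^ (2 / (q : ℝ) - ν) ≤ X ^ (2 / (q : ℝ) - ν') :=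
      Real.rpow_le_rpow_of_exponent_le hX (by linarith)
    calc ({x : K | x ∈ S₀ ∧ rad a x ≤ X}.ncard : ℝ) ≤ ((E ∩ Values K a X).ncard : ℝ) := by
          exact_mod_cast Set.ncard_le_ncard hsub hf2
      _ ≤ C * X ^ (2 / (q : ℝ) - ν) := hcount X hX
      _ ≤ C * X ^ (2 / (q : ℝ) - ν') := mul_le_mul_of_nonneg_left e1 hC.le
  · intro k _ _ A _ _ _ _ _ _ _ u y hy1 hy2
    obtain ⟨h1, h2⟩ := hE k A u y hy1 hy2
    have hnot : ∀ (m w : ℕ) (x : K),
        m ∉ {m : ℕ | ∃ w : ℕ, Common f b ρ m m w ∧ ∃ x ∈ S₀, |rad a x - G w| ≤ (w : ℝ) ^ θ} → Common f b ρ m m w →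
        (∀ j, x ≠ algebraMap ℚ K (a j)) → |rad a x - G w| ≤ (w : ℝ) ^ θ → x ∉ E := by
      intro m w x hm hw0 hx hw hxE
      apply hm
      refine ⟨w, hw0, x, ?_, hw⟩
      rw [hS₀]
      exact ⟨hxE, hx⟩
    constructor
    · obtain ⟨c, hc⟩ := h1
      exact ⟨c, fun m w _ hm hw0 x hx hw L _ _ _ _ φ hφ S hS => hc x (hnot m w x hm hw0 hx hw) hx L φ hφ S hS⟩
    · intro S hS
      obtain ⟨R, hR, hR2⟩ := h2 S hS
      exact ⟨R, hR, fun m w _ hm hw0 x hxR hx hw L _ _ _ _ φ hφ => hR2 x (hnot m w x hm hw0 hx hw) hxR hx L φ hφ⟩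

end Pool.Agent.Results.MP_e44225_nt.CommonFactors
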