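import Pool.Agent.U449.BV.F
import Pool.Agent.Results.MP_e44225_nt.OneExceptionalSet

/-!
# The error term in Vojta's inequality for all curves at all points over all elements with radicals near residues of
# polynomials on arbitrary sets

Let `K` be a number field, `a_1, …, a_q`, `q ≥ 3`, distinct rational numbers and `R(x)` the exponential of the truncated
counting function of `[a_1] + … + [a_q]` at `x`, the product of the norms of the primes at which `x` and some `a_j` have the same
reduction; there are `X ^ (2 / q + o(1))` elements `x` of `K`, of whatever height, with `R(x) ≤ X`. Let `κ > 0`. There are `ν > 0`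
and ONE subset `E` of `K` with two properties. (1) Let `θ ≥ 0` and `2 / q - ν + θ < δ ≤ 1`, let `p` be a large prime, `f(x, y)` ANY
polynomial of degree at most `d` over the field of `p` elements with a monomial which contains both variables (for example
`f = x y`), let `𝒜`, `ℬ` be ARBITRARY sets of at least `p ^ δ` residues, and `g`, `h` ARBITRARY functions from the residues to the
residues. For all the pairs `(a, b)` in `𝒜 × ℬ`, apart from a proportion of at most `p ^ (-ρ)`, NO `x` in `E` different from the
`a_j` has `R(x)` at a distance of at most `p ^ θ` from the least residue of `f(a, b) + g(a) + h(b)`. More generally, this holds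
for the values `F(a, b)` of all functions of two variables with few coincidences (`Rare`), on arbitrary finite sets. (2) For ALL
number fields `k`, ALL smooth projective curves `C` over `k` and ALL finite maps `t : C → ℙ¹` over `k` which are unramified
outside the fibres over the `a_j` (by Belyi's theorem every curve has such maps) all points `P` of all degrees over ALL `x` in
`K` not in `E` satisfy `m_S(F, P) + (deg K_C / N) h(x) ≤ d(L) - (2 - κ) h(x) + ∑_{p ∈ S} log p + c` for all finite sets `S` of
primes and all number fields `L` over which `P` is defined, and, with finitely many exceptions `x` for each `S`, the strict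
inequality without the last two terms. For the terms see `OneExceptionalSet`.

Since the sets and the functions `g` and `h` are arbitrary, the values have no arithmetic structure, and a value may be taken
by very many pairs. So the number of the exceptions (starting library) does not give the result directly. Proof: the
inequality of Cauchy and Schwarz; for most pairs `a, a'` the difference `F(a, b) - F(a', b)` is small for few `b`
(`Pool.Agent.U449.BV`).
-/

set_option autoImplicit false

namespace Pool.Agent.Results.MP_e44225_nt.MixedPolynomials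

open Polynomial IsDedekindDomain NumberField
open Pool.Agent.U449.BV (Rare OnProducts on_products_set residues)
open OneExceptionalSet (coord height proximity counting logDisc canonical Values)

/-- `R(x)`, the exponential of the truncated counting function of `[a_1] + … + [a_q]` at `x` -/
noncomputable def rad {K : Type} [Field K] [NumberField K] {q : ℕ} (a : Fin q → ℚ) (x : K) : ℝ :=
  Real.exp (counting (fun j => algebraMap ℚ K (a j)) x)

/-- The inequalities hold for all `x` not in `E`, for all curves, all points over `x` and all their fields of definition. -/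
def GoodOff (K : Type) [Field K] [NumberField K] {q : ℕ} (a : Fin q → ℚ) (κ : ℝ) (E : Set K) : Prop :=
  ∀ (k : Type) [Field k] [NumberField k] (A : Type) [CommRing A] [IsDedekindDomain A]
    [Algebra k A] [Algebra k[X] A] [IsScalarTower k k[X] A] [Module.Finite k[X] A]
    [FaithfulSMul k[X] A] (u : Fin q → ℕ) (y : ∀ j, Fin (u j + 1) → A),
    (∀ j, y j 0 = coord k A - algebraMap k A (algebraMap ℚ k (a j))) →
    (∀ j i, y j i ∈
      (Ideal.span {coord k A - algebraMap k A (algebraMap ℚ k (a j))}).radical) →
    (∃ c : ℝ, ∀ x : K, x ∉ E → (∀ j, x ≠ algebraMap ℚ K (a j)) →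
      ∀ (L : Type) [Field L] [NumberField L] [Algebra K L] [Algebra k L] (φ : A →ₐ[k] L),
        φ (coord k A) = algebraMap K L x → ∀ S : Finset ℕ, (∀ p ∈ S, p.Prime) →
          proximity S y φ + canonical k y * height x ≤
            logDisc L - (2 - κ) * height x + ∑ p ∈ S, Real.log p + c) ∧
    ∀ S : Finset ℕ, (∀ p ∈ S, p.Prime) → ∃ R : Set K, R.Finite ∧
      ∀ x : K, x ∉ E → x ∉ R → (∀ j, x ≠ algebraMap ℚ K (a j)) →
      ∀ (L : Type) [Field L] [NumberField L] [Algebra K L] [Algebra k L] (φ : A →ₐ[k] L),
        φ (coord k A) = algebraMap K L x →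
          proximity S y φ + canonical k y * height x < logDisc L - (2 - κ) * height x

/-- NO `x` in `E` which is different from the `a_j` has `|R(x) - v| ≤ W`. -/
def Near {K : Type} [Field K] [NumberField K] {q : ℕ} (a : Fin q → ℚ) (E : Set K) (W v : ℝ) : Prop :=
  ∀ x : K, (∀ j, x ≠ algebraMap ℚ K (a j)) → |rad a x - v| ≤ W → x ∉ E

/-- **Theorem.** Let `K` be a number field, `a_1, …, a_q`, `q ≥ 3`, distinct rational numbers and `κ > 0`. There are `ν > 0` and a
subset `E` of `K` such that the inequalities hold off `E` (`GoodOff`), and such that for all `θ ≥ 0` the property `Near` (no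
element of `E` has its radical in the window), with windows of length `X ^ θ`, holds for almost all values of functions of two
variables with few coincidences, on arbitrary finite sets of at least `X ^ δ` elements, `2 / q - ν + θ < δ ≤ 1` (`OnProducts`).
The least residues modulo a prime `p` of `f(a, b) + g(a) + h(b)` are such a function, with `X = p`, for all polynomials `f`
modulo `p` with a monomial which contains both variables, arbitrary functions `g` and `h`, and arbitrary sets of residues. -/
theorem result :
    (∀ (K : Type) [Field K] [NumberField K] (q : ℕ), 3 ≤ q → ∀ a : Fin q → ℚ, Function.Injective a → ∀ κ : ℝ, 0 < κ →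
      ∃ (ν : ℝ) (E : Set K), 0 < ν ∧ GoodOff K a κ E ∧
        ∀ θ : ℝ, 0 ≤ θ → OnProducts (2 / (q : ℝ) - ν + θ) θ (Near a E)) ∧
    ∀ (p : ℕ) [Fact p.Prime] (d : ℕ) (f : MvPolynomial (Fin 2) (ZMod p)), f.totalDegree ≤ d →
      (∃ m ∈ f.support, m 0 ≠ 0 ∧ m 1 ≠ 0) → ∀ (g h : ZMod p → ZMod p) (A B : Finset (ZMod p)),
        Rare d A B (fun a b => (((MvPolynomial.eval ![a, b] f + g a + h b).val : ℕ) : ℝ)) := by
  refine ⟨?_, residues⟩
  intro K _ _ q hq a ha κ hκ
  obtain ⟨hval, hres⟩ := OneExceptionalSet.result K q hq a ha
  obtain ⟨E, ⟨ν, C, hν, hC, hcount⟩, -, hE⟩ := hres κ hκ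
  have hfin : ∀ X : ℝ, 1 ≤ X → (Values K a X).Finite := by
    obtain ⟨⟨C1, h1⟩, -⟩ := hval 1 one_pos
    exact fun X hX => (h1 X hX).1
  have hq0 : (0 : ℝ) < q := by
    have : 0 < q := by omega
    exact_mod_cast this
  have hg : 0 < 2 / (q : ℝ) := by positivity
  obtain ⟨ν', hν'⟩ : ∃ ν', ν' = min ν (2 / (q : ℝ)) := ⟨_, rfl⟩
  have hν'0 : 0 < ν' := by rw [hν']; exact lt_min hν hg
  have hν'1 : ν' ≤ ν := by rw [hν']; exact min_le_left _ _
  have hν'2 : ν' ≤ 2 / (q : ℝ) := by rw [hν']; exact min_le_right _ _
  refine ⟨ν', E, hν'0, ?_, fun θ hθ => ?_⟩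
  · intro k _ _ A _ _ _ _ _ _ _ u y hy1 hy2
    obtain ⟨h1, h2⟩ := hE k A u y hy1 hy2
    constructor
    · obtain ⟨c, hc⟩ := h1
      exact ⟨c, fun x hxE hx L _ _ _ _ φ hφ S hS => hc x hxE hx L φ hφ S hS⟩
    · intro S hS
      obtain ⟨R, hR, hR2⟩ := h2 S hS
      exact ⟨R, hR, fun x hxE hxR hx L _ _ _ _ φ hφ => hR2 x hxE hxR hx L φ hφ⟩
  · refine (on_products_set {x : K | x ∈ E ∧ ∀ j, x ≠ algebraMap ℚ K (a j)} (fun x : K => rad a x)
      (s := 2 / (q : ℝ) - ν') (κ := θ) (by linarith) hθ (fun ε hε => ⟨C, fun X hX => ?_⟩)).mono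
      fun W v _ hg x hx hw hxE => hg x hw ⟨hxE, hx⟩
    have hX0 : 0 < X := by linarith
    have hsub : {x : K | x ∈ {x : K | x ∈ E ∧ ∀ j, x ≠ algebraMap ℚ K (a j)} ∧ rad a x ≤ X} ⊆ E ∩ Values K a X := by
      rintro x ⟨h1, h2⟩
      refine ⟨h1.1, h1.2, ?_⟩
      rw [Real.le_log_iff_exp_le hX0]
      exact h2
    have hf2 : (E ∩ Values K a X).Finite := (hfin X hX).subset Set.inter_subset_right
    refine ⟨hf2.subset hsub, ?_⟩
    have e1 : X ^ (2 / (q : ℝ) - ν) ≤ X ^ (2 / (q : ℝ) - ν' + ε) :=
      Real.rpow_le_rpow_of_exponent_le hX (by linarith)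
    calc ({x : K | x ∈ {x : K | x ∈ E ∧ ∀ j, x ≠ algebraMap ℚ K (a j)} ∧ rad a x ≤ X}.ncard : ℝ) ≤
          ((E ∩ Values K a X).ncard : ℝ) := by
          exact_mod_cast Set.ncard_le_ncard hsub hf2
      _ ≤ C * X ^ (2 / (q : ℝ) - ν) := hcount X hX
      _ ≤ C * X ^ (2 / (q : ℝ) - ν' + ε) := mul_le_mul_of_nonneg_left e1 hC.le

end Pool.Agent.Results.MP_e44225_nt.MixedPolynomials
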