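import Pool.Agent.U405.RS.F
import Pool.Agent.U405.RS.F2
import Pool.Agent.Results.MP_e44225_nt.OneExceptionalSet

/-!
# The height inequality for curves with a logarithmic error term: radicals near values of `f` at thin sets of arguments

Let `f` be a positive multiplicative function of at most polynomial growth which for each `a ≥ 1` is injective at the powers
`p ^ a` of the large primes and at most `M p ^ a` there; for example Euler's function or the sum of the divisors. Let `K` be a number field, `a_1, …, a_q`, `q ≥ 3`, distinct rational numbers and `κ > 0`. There are a set `E ⊆ K` and `ν > 0` with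
two properties. First, the height inequality of the question (with a gain `(2 - κ) h(x)`) holds for all points with
`t(P) = x ∉ E` of ALL curves over the line and ALL divisors above the `a_j`, over ALL fields of definition. Second, let `R(x)` be
the exponential of the truncated counting function of `[a_1] + … + [a_q]` at `x`; then no `x ∈ E` different from the `a_j`
satisfies `|R(x) - α f(v)^d| ≤ f(v)^θ`, for almost all `v` (with a saving of any power of the logarithm) in each of these sets,
`e = d (2 / q - ν) + θ`:

* the values of any integer polynomial without repeated roots, of degree `< 1 / e`;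
* the shifted primes `p + a`, `a` any integer, if `e < 1`;
* the intervals `(x, x + y]`, `x^τ ≤ y ≤ x`, for every `τ > e`, `τ ≤ 1`.

Proof. Own tool `Pool.Agent.U405.RS`: let `S` be a set of at least `N^(θ + δ)` integers up to `N` with at most
`B g^ω(k) |S| / k` multiples of `k` for every `k ≤ N^δ`, and let `W` have at most `C X^θ` elements up to `X`. Then `f(m) ∈ W` for at
most `|S| / (log N)^U` of the `m` in `S`. For this write `m = k w` with `k` composed of the primes `≤ z = N^(1 / J)`, `J` a small
multiple of `log log N`. By Rankin's method with the weights `g^ω(k)` one has `k ≤ N^η` for most `m`; and `w` has at most `J`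
prime factors and exponents `≤ J`, so that `w` is determined by `f(w)` up to `(J τ(f(w)) + 1)^J = N^o(1)` possibilities. The three
kinds of sets satisfy the hypothesis: for polynomials because `P` has at most `g` zeros modulo every prime power (lifting of
zeros by the identity `U P + V P' = R`), for shifted primes by the Brun-Titchmarsh inequality (library). The exceptional
set is the one of the starting theorem `OneExceptionalSet` of this problem.
-/

set_option autoImplicit false

namespace Pool.Agent.Results.MP_e44225_nt.SparseArguments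

open Polynomial IsDedekindDomain NumberField
open Pool.Agent.N733.TG (Expanding expanding_pow)
open Pool.Agent.U405.RS (PM Sparse sparse_set' examples)
open OneExceptionalSet (coord height proximity counting logDisc canonical Values)

/-- `R(x)`, the exponential of the truncated counting function of `[a_1] + … + [a_q]` at `x` -/
noncomputable def rad {K : Type} [Field K] [NumberField K] {q : ℕ} (a : Fin q → ℚ) (x : K) : ℝ :=
  Real.exp (counting (fun j => algebraMap ℚ K (a j)) x)

/-- no `x` in `E` different from the `a_j` satisfies `|R(x) - G v| ≤ v ^ θ` -/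
def Clear {K : Type} [Field K] [NumberField K] {q : ℕ} (a : Fin q → ℚ) (E : Set K) (G : ℕ → ℝ) (θ : ℝ) (v : ℕ) : Prop :=
  ∀ x : K, (∀ j, x ≠ algebraMap ℚ K (a j)) → |rad a x - G v| ≤ (v : ℝ) ^ θ → x ∉ E

/-- **Theorem.** Let `K` be a number field, `a_1, …, a_q`, `q ≥ 3`, distinct rational numbers and `κ > 0`. There are `ν > 0` and
`E ⊆ K` with the following properties. (1) Let `f` be in the class `PM`, let `G` have steps `≥ const > 0` and growth at most
`v ^ d`, `θ ≥ 0` and `U` any. The property that no `x ∈ E` different from the `a_j` satisfies `|R(x) - G v| ≤ v ^ θ` holds in the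
sense `Sparse e f`, `e = d max (2 / q - ν) 0 + θ`. (`Sparse e f`: with a saving of `(log x)^U` it holds at `f v` for almost all `v` among the positive values of every integer
polynomial without repeated roots of degree `< 1 / e`; among the shifted primes `p + a` for every `a`, if `e < 1`; and in all
intervals `(x, x + y]`, `x^τ ≤ y ≤ x`, `e < τ ≤ 1`.) Euler's function and the sum of the divisors are in the class `PM`, and
`α v^d` with `α > 0`, `d ≥ 1` is an example of `G`. (2) Let
`k` be a number field, `A` a Dedekind domain, finite over `k[t]` and containing it, and let `y_{j 0} = t - a_j, y_{j 1}, …` be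
elements of the radical of the ideal `(t - a_j)` of `A`, for example generators. Write `g` for
`q - 2 - (∑_j dim (A / (y_{j 0}, y_{j 1}, …))) / N`. There is a constant `c` such that for ALL `x ∉ E` in `K`, different from the
`a_j`, all points `P` of the curve with `t(P) = x`, all number fields `L` containing `k` and `K` over which `P` is defined and all
finite sets `S` of primes, `m_S(F, P) + g h(x) ≤ d(L) - (2 - κ) h(x) + ∑_{p ∈ S} log p + c`. -/
theorem result (K : Type) [Field K] [NumberField K] (q : ℕ) (hq : 3 ≤ q) (a : Fin q → ℚ)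
    (ha : Function.Injective a) (κ : ℝ) (hκ : 0 < κ) :
    (∃ ν : ℝ, 0 < ν ∧ ∃ E : Set K,
      (∀ f : ℕ → ℕ, PM f → ∀ (G : ℕ → ℝ) (d θ : ℝ), Expanding G d → 0 ≤ θ → ∀ U : ℕ,
        Sparse (d * max (2 / (q : ℝ) - ν) 0 + θ) f (Clear a E G θ) U) ∧
      ∀ (k : Type) [Field k] [NumberField k] (A : Type) [CommRing A] [IsDedekindDomain A]
        [Algebra k A] [Algebra k[X] A] [IsScalarTower k k[X] A] [Module.Finite k[X] A]
        [FaithfulSMul k[X] A] (u : Fin q → ℕ) (y : ∀ j, Fin (u j + 1) → A),
        (∀ j, y j 0 = coord k A - algebraMap k A (algebraMap ℚ k (a j))) →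
        (∀ j i, y j i ∈
          (Ideal.span {coord k A - algebraMap k A (algebraMap ℚ k (a j))}).radical) →
        ∃ c : ℝ, ∀ x : K, x ∉ E → (∀ j, x ≠ algebraMap ℚ K (a j)) →
          ∀ (L : Type) [Field L] [NumberField L] [Algebra K L] [Algebra k L] (φ : A →ₐ[k] L),
            φ (coord k A) = algebraMap K L x → ∀ S : Finset ℕ, (∀ p ∈ S, p.Prime) →
              proximity S y φ + canonical k y * height x ≤
                logDisc L - (2 - κ) * height x + ∑ p ∈ S, Real.log p + c) ∧
    (PM Nat.totient ∧ PM (fun m => ∑ d ∈ m.divisors, d) ∧ PM (fun m => m)) ∧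
    ∀ α d : ℝ, 0 < α → 1 ≤ d → Expanding (fun v => α * (v : ℝ) ^ d) d := by
  refine ⟨?_, examples, fun α d hα hd => expanding_pow hα hd⟩
  obtain ⟨hval, hres⟩ := OneExceptionalSet.result K q hq a ha
  obtain ⟨E, ⟨ν, C, hν, hC, hcount⟩, -, hE⟩ := hres κ hκ
  have hfin : ∀ X : ℝ, 1 ≤ X → (Values K a X).Finite := by
    obtain ⟨⟨C1, h1⟩, -⟩ := hval 1 one_pos
    exact fun X hX => (h1 X hX).1
  refine ⟨ν, hν, E, fun f hf G d θ hG hθ U => ?_, fun k _ _ A _ _ _ _ _ _ _ u y hy1 hy2 => ?_⟩
  · refine sparse_set' {x : K | x ∈ E ∧ ∀ j, x ≠ algebraMap ℚ K (a j)} (fun x : K => rad a x) hf hG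
      (s := max (2 / (q : ℝ) - ν) 0) (κ := θ) (le_max_right _ _) hθ rfl (fun ε hε => ⟨C, fun X hX => ?_⟩) _ U
      (fun v hv x hx hw hxE => hv x ⟨hxE, hx⟩ hw)
    have hX0 : 0 < X := by linarith
    have hsub : {x : K | x ∈ {x : K | x ∈ E ∧ ∀ j, x ≠ algebraMap ℚ K (a j)} ∧ rad a x ≤ X} ⊆ E ∩ Values K a X := by
      rintro x ⟨h1, h2⟩
      refine ⟨h1.1, h1.2, ?_⟩
      rw [Real.le_log_iff_exp_le hX0]
      exact h2
    have hf2 : (E ∩ Values K a X).Finite := (hfin X hX).subset Set.inter_subset_right
    refine ⟨hf2.subset hsub, ?_⟩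
    have e1 : X ^ (2 / (q : ℝ) - ν) ≤ X ^ (max (2 / (q : ℝ) - ν) 0 + ε) :=
      Real.rpow_le_rpow_of_exponent_le hX (by linarith [le_max_left (2 / (q : ℝ) - ν) 0])
    calc (({x : K | x ∈ {x : K | x ∈ E ∧ ∀ j, x ≠ algebraMap ℚ K (a j)} ∧ rad a x ≤ X}.ncard : ℕ) : ℝ)
        ≤ ((E ∩ Values K a X).ncard : ℝ) := by
          exact_mod_cast Set.ncard_le_ncard hsub hf2
      _ ≤ C * X ^ (2 / (q : ℝ) - ν) := hcount X hX
      _ ≤ C * X ^ (max (2 / (q : ℝ) - ν) 0 + ε) := mul_le_mul_of_nonneg_left e1 hC.le
  · obtain ⟨⟨c, hc⟩, -⟩ := hE k A u y hy1 hy2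
    exact ⟨c, fun x hx hxa L _ _ _ _ φ hφ S hS => hc x hx hxa L φ hφ S hS⟩

end Pool.Agent.Results.MP_e44225_nt.SparseArguments
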